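import Pool.Agent.W120.WM.Defs

/-!
Project WM (helper120): Mellin inversion on the line with real part three halves (T_INV).
-/

set_option autoImplicit false

open MeasureTheory Filter Topology Set

namespace Pool.Agent.W150.WM

open Pool.Agent.W120.WM

lemma mx_abs_le (u : ℝ) : |Mx u| ≤ (⌊u⌋₊ : ℝ) := by
  unfold Mx
  calc |∑ n ∈ Finset.Icc 1 ⌊u⌋₊, ((ArithmeticFunction.moebius n : ℤ) : ℝ)|
      ≤ ∑ n ∈ Finset.Icc 1 ⌊u⌋₊, |((ArithmeticFunction.moebius n : ℤ) : ℝ)| :=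
        Finset.abs_sum_le_sum_abs _ _
    _ ≤ ∑ n ∈ Finset.Icc 1 ⌊u⌋₊, (1 : ℝ) := Finset.sum_le_sum fun n _ => by
        have := ArithmeticFunction.abs_moebius_le_one (n := n)
        exact_mod_cast this
    _ = ⌊u⌋₊ := by simp

lemma mx_zero {y : ℝ} (hy : y < 0) : Mx (Real.exp y) = 0 := by
  unfold Mx
  have h1 : ⌊Real.exp y⌋₊ = 0 := Nat.floor_eq_zero.2 (by
    rw [← Real.exp_zero]
    exact Real.exp_lt_exp.2 hy)
  rw [h1]
  simp

lemma mx_meas : Measurable (fun y : ℝ => Mx (Real.exp y)) := by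
  have h1 : Measurable (fun n : ℕ => ∑ k ∈ Finset.Icc 1 n,
      ((ArithmeticFunction.moebius k : ℤ) : ℝ)) := measurable_from_top
  exact h1.comp (Nat.measurable_floor.comp Real.measurable_exp)

lemma intB : Integrable (fun y : ℝ => Mx (Real.exp y) * Real.exp (-(3 / 2) * y)) := by
  have hg : Integrable ((Ioi (-1 : ℝ)).indicator (fun y => Real.exp (-(1 / 2) * y))) :=
    (integrable_indicator_iff measurableSet_Ioi).2 (exp_neg_integrableOn_Ioi (-1) (by norm_num))
  have hm : Measurable (fun y : ℝ => Mx (Real.exp y) * Real.exp (-(3 / 2) * y)) :=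
    mx_meas.mul (by fun_prop)
  refine hg.mono' hm.aestronglyMeasurable (ae_of_all _ fun y => ?_)
  rw [Real.norm_eq_abs, abs_mul, abs_of_pos (Real.exp_pos _)]
  by_cases hy : y < 0
  · rw [mx_zero hy, abs_zero, zero_mul]
    exact indicator_nonneg (fun _ _ => (Real.exp_pos _).le) _
  · have hy' : y ∈ Ioi (-1 : ℝ) := by
      rw [mem_Ioi]
      linarith [not_lt.1 hy]
    rw [indicator_of_mem hy']
    calc |Mx (Real.exp y)| * Real.exp (-(3 / 2) * y)
        ≤ Real.exp y * Real.exp (-(3 / 2) * y) := by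
          gcongr
          exact (mx_abs_le _).trans (Nat.floor_le (Real.exp_pos _).le)
      _ = Real.exp (-(1 / 2) * y) := by
          rw [← Real.exp_add]
          congr 1
          ring

lemma inv_zeta (s : ℂ) (hs : 1 < s.re) :
    (s * riemannZeta s)⁻¹ = ∫ y : ℝ, ((Mx (Real.exp y) : ℝ) : ℂ) * Complex.exp (-(s * y)) := by
  have hs0 : s ≠ 0 := by
    intro h
    rw [h, Complex.zero_re] at hs
    linarith
  have h1 := LSeries_eq_mul_integral' (fun n => ((ArithmeticFunction.moebius n : ℤ) : ℂ))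
    (r := 1) zero_le_one hs (by
      apply Asymptotics.IsBigO.of_bound 1
      refine Eventually.of_forall fun n => ?_
      have h2 : ∑ k ∈ Finset.Icc 1 n, ‖((ArithmeticFunction.moebius k : ℤ) : ℂ)‖ ≤ (n : ℝ) := by
        calc ∑ k ∈ Finset.Icc 1 n, ‖((ArithmeticFunction.moebius k : ℤ) : ℂ)‖
            ≤ ∑ k ∈ Finset.Icc 1 n, (1 : ℝ) := Finset.sum_le_sum fun k _ => by
              rw [Complex.norm_intCast]
              have := ArithmeticFunction.abs_moebius_le_one (n := k)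
              exact_mod_cast this
          _ = n := by simp
      rw [Real.norm_of_nonneg (Finset.sum_nonneg fun _ _ => norm_nonneg _), Real.rpow_one,
        Real.norm_of_nonneg (Nat.cast_nonneg _), one_mul]
      exact h2)
  have h3 : LSeries (fun n => ((ArithmeticFunction.moebius n : ℤ) : ℂ)) s = (riemannZeta s)⁻¹ := by
    have h4 := ArithmeticFunction.LSeries_zeta_mul_Lseries_moebius hs
    rw [ArithmeticFunction.LSeries_zeta_eq_riemannZeta hs] at h4
    exact eq_inv_of_mul_eq_one_right h4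
  rw [mul_inv, ← h3, h1, ← mul_assoc, inv_mul_cancel₀ hs0, one_mul]
  have himg : Real.exp '' Ioi (0 : ℝ) = Ioi 1 := by
    ext t
    constructor
    · rintro ⟨y, hy, rfl⟩
      exact Real.one_lt_exp_iff.2 hy
    · intro ht
      have ht' : (1 : ℝ) < t := ht
      exact ⟨Real.log t, Real.log_pos ht', Real.exp_log (by linarith)⟩
  rw [← himg, integral_image_eq_integral_abs_deriv_smul measurableSet_Ioi
    (fun x _ => (Real.hasDerivAt_exp x).hasDerivWithinAt) Real.exp_injective.injOn]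
  have hset : ∫ y in Ioi (0 : ℝ), ((Mx (Real.exp y) : ℝ) : ℂ) * Complex.exp (-(s * y)) =
      ∫ y : ℝ, ((Mx (Real.exp y) : ℝ) : ℂ) * Complex.exp (-(s * y)) := by
    rw [← integral_Ici_eq_integral_Ioi]
    apply setIntegral_eq_integral_of_forall_compl_eq_zero
    intro y hy
    have hy' : y < 0 := by
      rw [mem_Ici, not_le] at hy
      exact hy
    rw [mx_zero hy', Complex.ofReal_zero, zero_mul]
  rw [← hset]
  apply setIntegral_congr_fun measurableSet_Ioi
  intro y _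
  have hMx : (∑ k ∈ Finset.Icc 1 ⌊Real.exp y⌋₊, ((ArithmeticFunction.moebius k : ℤ) : ℂ)) =
      ((Mx (Real.exp y) : ℝ) : ℂ) := by
    unfold Mx
    push_cast
    rfl
  have hpow : ((Real.exp y : ℝ) : ℂ) ^ (-(s + 1)) = Complex.exp ((y : ℂ) * (-(s + 1))) := by
    rw [Complex.cpow_def_of_ne_zero (by exact_mod_cast (Real.exp_pos y).ne'),
      ← Complex.ofReal_log (Real.exp_pos y).le, Real.log_exp]
  show |Real.exp y| • ((∑ k ∈ Finset.Icc 1 ⌊Real.exp y⌋₊,
    ((ArithmeticFunction.moebius k : ℤ) : ℂ)) * ((Real.exp y : ℝ) : ℂ) ^ (-(s + 1))) = _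
  rw [hMx, hpow, abs_of_pos (Real.exp_pos _), Complex.real_smul, Complex.ofReal_exp,
    mul_left_comm, ← Complex.exp_add]
  congr 2
  ring

lemma mk_eq (t : ℝ) : (⟨3 / 2, t⟩ : ℂ) = 3 / 2 + t * Complex.I := by
  apply Complex.ext
  · simp
  · simp

lemma EE_quad (h x t : ℝ) : EE h x (⟨3 / 2, t⟩ : ℂ) =
    Complex.exp (((-(h ^ 2) / 2 : ℝ) : ℂ) * (t : ℂ) ^ 2 +
      (((3 / 2 * h ^ 2 + x : ℝ) : ℂ) * Complex.I) * t + ((9 / 8 * h ^ 2 + 3 / 2 * x : ℝ) : ℂ)) := by
  unfold EE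
  rw [mk_eq]
  congr 1
  push_cast
  have hI : Complex.I ^ 2 = -1 := Complex.I_sq
  linear_combination ((h : ℂ) ^ 2 * t ^ 2 / 2) * hI

lemma EE_int (h x : ℝ) (hh : 0 < h) : Integrable (fun t : ℝ => EE h x (⟨3 / 2, t⟩ : ℂ)) := by
  simp only [EE_quad]
  apply integrable_cexp_quadratic'
  rw [Complex.ofReal_re]
  have : 0 < h ^ 2 := by positivity
  linarith

lemma EE_val (h x : ℝ) (hh : 0 < h) : ∫ t : ℝ, EE h x (⟨3 / 2, t⟩ : ℂ) =
    ((2 * Real.pi * gk h x : ℝ) : ℂ) := by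
  simp only [EE_quad]
  have h2 : 0 < h ^ 2 := by positivity
  rw [integral_cexp_quadratic (by rw [Complex.ofReal_re]; linarith)]
  have e1 : ((Real.pi : ℂ) / -((-(h ^ 2) / 2 : ℝ) : ℂ)) = ((2 * Real.pi / h ^ 2 : ℝ) : ℂ) := by
    push_cast
    have : (h : ℂ) ≠ 0 := by exact_mod_cast hh.ne'
    field_simp
  have e2 : (((2 * Real.pi / h ^ 2 : ℝ) : ℂ)) ^ (1 / 2 : ℂ) =
      ((Real.sqrt (2 * Real.pi) / h : ℝ) : ℂ) := by
    have e3 : (1 / 2 : ℂ) = ((1 / 2 : ℝ) : ℂ) := by push_cast; ring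
    rw [e3, ← Complex.ofReal_cpow (by positivity), ← Real.sqrt_eq_rpow, Real.sqrt_div (by positivity),
      Real.sqrt_sq hh.le]
  have e4 : (((9 / 8 * h ^ 2 + 3 / 2 * x : ℝ) : ℂ) -
      (((3 / 2 * h ^ 2 + x : ℝ) : ℂ) * Complex.I) ^ 2 / (4 * ((-(h ^ 2) / 2 : ℝ) : ℂ))) =
      ((-(x ^ 2 / (2 * h ^ 2)) : ℝ) : ℂ) := by
    rw [mul_pow, Complex.I_sq]
    push_cast
    have : (h : ℂ) ≠ 0 := by exact_mod_cast hh.ne'
    field_simp
    ring
  rw [e1, e2, e4, ← Complex.ofReal_exp, ← Complex.ofReal_mul]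
  congr 1
  unfold gk
  have hs : Real.sqrt (2 * Real.pi) * Real.sqrt (2 * Real.pi) = 2 * Real.pi :=
    Real.mul_self_sqrt (by positivity)
  have hs0 : Real.sqrt (2 * Real.pi) ≠ 0 := by positivity
  rw [← mul_assoc]
  congr 1
  rw [div_eq_iff hh.ne', mul_inv]
  field_simp
  nlinarith [hs]

lemma EE_cont (h v : ℝ) : Continuous (fun t : ℝ => EE h v (⟨3 / 2, t⟩ : ℂ)) := by
  simp only [EE_quad]
  fun_prop

lemma F_int (h v : ℝ) (hh : 0 < h) :
    Integrable (fun p : ℝ × ℝ => EE h v (⟨3 / 2, p.1⟩ : ℂ) *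
      (((Mx (Real.exp p.2) : ℝ) : ℂ) * Complex.exp (-((⟨3 / 2, p.1⟩ : ℂ) * p.2))))
      (volume.prod volume) := by
  have hAB : Integrable (fun p : ℝ × ℝ => EE h v (⟨3 / 2, p.1⟩ : ℂ) *
      ((Mx (Real.exp p.2) * Real.exp (-(3 / 2) * p.2) : ℝ) : ℂ)) (volume.prod volume) :=
    (EE_int h v hh).mul_prod (intB.ofReal)
  refine hAB.mono ?_ (ae_of_all _ fun p => ?_)
  · apply Measurable.aestronglyMeasurable
    have m1 : Measurable (fun p : ℝ × ℝ => p.1) := measurable_fst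
    have m2 : Measurable (fun p : ℝ × ℝ => p.2) := measurable_snd
    have a1 : Measurable (fun p : ℝ × ℝ => EE h v (⟨3 / 2, p.1⟩ : ℂ)) :=
      (EE_cont h v).measurable.comp m1
    have a2 : Measurable (fun p : ℝ × ℝ => ((Mx (Real.exp p.2) : ℝ) : ℂ)) :=
      Complex.measurable_ofReal.comp (mx_meas.comp m2)
    have a3 : Measurable (fun p : ℝ × ℝ => Complex.exp (-((⟨3 / 2, p.1⟩ : ℂ) * p.2))) := by
      simp only [mk_eq]
      fun_prop
    exact a1.mul (a2.mul a3)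
  · rw [norm_mul, norm_mul, norm_mul, Complex.ofReal_mul, norm_mul]
    apply le_of_eq
    congr 2
    rw [Complex.norm_exp, Complex.norm_real, Real.norm_of_nonneg (Real.exp_pos _).le]
    congr 1
    simp

theorem inv : T_INV := by
  intro h v hh
  have hGG : ∀ t : ℝ, GG h v (⟨3 / 2, t⟩ : ℂ) = ∫ y : ℝ, EE h v (⟨3 / 2, t⟩ : ℂ) *
      (((Mx (Real.exp y) : ℝ) : ℂ) * Complex.exp (-((⟨3 / 2, t⟩ : ℂ) * y))) := by
    intro t
    unfold GG
    rw [div_eq_mul_inv, inv_zeta _ (by norm_num), integral_const_mul]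
  have hF := F_int h v hh
  constructor
  · simp only [hGG]
    exact hF.integral_prod_left
  · simp only [hGG]
    rw [integral_integral_swap hF]
    have hin : ∀ y : ℝ, ∫ t : ℝ, EE h v (⟨3 / 2, t⟩ : ℂ) *
        (((Mx (Real.exp y) : ℝ) : ℂ) * Complex.exp (-((⟨3 / 2, t⟩ : ℂ) * y))) =
        ((2 * Real.pi : ℝ) : ℂ) * ((Mx (Real.exp y) * gk h (v - y) : ℝ) : ℂ) := by
      intro y
      have e1 : ∀ t : ℝ, EE h v (⟨3 / 2, t⟩ : ℂ) *
          (((Mx (Real.exp y) : ℝ) : ℂ) * Complex.exp (-((⟨3 / 2, t⟩ : ℂ) * y))) =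
          ((Mx (Real.exp y) : ℝ) : ℂ) * EE h (v - y) (⟨3 / 2, t⟩ : ℂ) := by
        intro t
        rw [mul_left_comm]
        congr 1
        unfold EE
        rw [← Complex.exp_add]
        congr 1
        push_cast
        ring
      simp only [e1]
      rw [integral_const_mul, EE_val _ _ hh]
      push_cast
      ring
    simp only [hin]
    have e5 : ∫ a : ℝ, ((Mx (Real.exp a) * gk h (v - a) : ℝ) : ℂ) =
        ((∫ a : ℝ, Mx (Real.exp a) * gk h (v - a) : ℝ) : ℂ) := integral_ofReal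
    rw [integral_const_mul, e5, ← mul_assoc, inv_mul_cancel₀ (by
      have : (2 * Real.pi : ℝ) ≠ 0 := by positivity
      exact_mod_cast this), one_mul]
    congr 1
    unfold Sm
    rw [← integral_sub_left_eq_self (fun y => Mx (Real.exp y) * gk h (v - y)) volume v]
    congr 1
    funext w
    rw [sub_sub_cancel]

end Pool.Agent.W150.WM
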